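import Pool.Agent.MVS.Stmts

/-!
MVS squad, row COA: if the normal exponential map is not injective there is a coincidence where the
two geodesics fit together
-/

noncomputable section

open scoped ContDiff Topology RealInnerProductSpace
open Set Filter

namespace Pool.Agent.MVS.H76

open Pool.Agent.RF Pool.Agent.MVS

/-- an injective endomorphism of `ℝ^5` as a continuous linear equivalence -/
theorem exists_equiv (A : E5 →L[ℝ] E5) (hA : Function.Injective A) :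
    ∃ e : E5 ≃L[ℝ] E5, (e : E5 →L[ℝ] E5) = A := by
  have hA' : Function.Injective (A : E5 →ₗ[ℝ] E5) := hA
  refine ⟨(LinearEquiv.ofInjectiveEndo (A : E5 →ₗ[ℝ] E5) hA').toContinuousLinearEquiv, ?_⟩
  ext x
  rfl

/-- the local data at a point with invertible derivative -/
theorem local_inv {F : E5 → E5} {z : E5} (hF : ContDiffAt ℝ ∞ F z)
    (hinj : Function.Injective (fderiv ℝ F z)) :
    (∃ U : Set E5, IsOpen U ∧ z ∈ U ∧ ∀ x ∈ U, ∀ y ∈ U, F x = F y → x = y) ∧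
    ∀ u : E5, ∃ (g : ℝ → E5) (w : E5), fderiv ℝ F z w = u ∧ g 0 = z ∧ HasDerivAt g w 0 ∧
      ∀ᶠ s in 𝓝 (0 : ℝ), F (g s) = F z + s • u := by
  obtain ⟨e, he⟩ := exists_equiv _ hinj
  have hst : HasStrictFDerivAt F (e : E5 →L[ℝ] E5) z := by
    rw [he]
    exact hF.hasStrictFDerivAt (by simp)
  constructor
  · have h1 := hst.eventually_left_inverse
    obtain ⟨U, hU, hUo, hzU⟩ := eventually_nhds_iff.mp h1
    refine ⟨U, hUo, hzU, fun x hx y hy hxy => ?_⟩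
    rw [← hU x hx, ← hU y hy, hxy]
  · intro u
    have h2 := hst.to_localInverse
    have h3 := hst.eventually_right_inverse
    have h4 : hst.localInverse F e z (F z) = z := hst.localInverse_apply_image
    have hl : HasDerivAt (fun s : ℝ => F z + s • u) u 0 := by
      have h5 : HasDerivAt (fun s : ℝ => s • u) ((1 : ℝ) • u) 0 := (hasDerivAt_id 0).smul_const u
      rw [one_smul] at h5
      exact h5.const_add (F z)
    refine ⟨fun s => hst.localInverse F e z (F z + s • u), e.symm u, ?_, ?_, ?_, ?_⟩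
    · rw [← he]
      exact e.apply_symm_apply u
    · simp only [zero_smul, add_zero]
      exact h4
    · have h5 : HasFDerivAt (hst.localInverse F e z) (e.symm : E5 →L[ℝ] E5)
          (F z + (0 : ℝ) • u) := by
        rw [zero_smul, add_zero]
        exact h2.hasFDerivAt
      exact h5.comp_hasDerivAt (0 : ℝ) hl
    · have h5 : Tendsto (fun s : ℝ => F z + s • u) (𝓝 0) (𝓝 (F z)) := by
        have h6 := hl.continuousAt.tendsto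
        simpa using h6
      exact h5.eventually h3

/-- a minimal coincidence -/
theorem exists_min {G : E5 → Bil E5} {κ : Finset (Fin 5)} {a b : ℝ} {F : E5 → E5}
    (hROT : RotStatement) (hINV : InvStatement) (hS : Setup G κ a b) (hN : NData G κ F)
    {z₁ z₂ : E5} (h1 : pN κ z₁ ≠ 0) (h2 : pN κ z₂ ≠ 0) (hp1 : ‖pP κ z₁‖ < Real.pi / 2)
    (hp2 : ‖pP κ z₂‖ < Real.pi / 2) (hF : F z₁ = F z₂) (hne : z₁ ≠ z₂) :
    ∃ w₁ w₂ : E5, pN κ w₁ ≠ 0 ∧ pN κ w₂ ≠ 0 ∧ ‖pP κ w₁‖ < Real.pi / 2 ∧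
      ‖pP κ w₂‖ < Real.pi / 2 ∧ F w₁ = F w₂ ∧ w₁ ≠ w₂ ∧
      ∀ x₁ x₂ : E5, pN κ x₁ ≠ 0 → pN κ x₂ ≠ 0 → ‖pP κ x₁‖ < ‖pP κ w₁‖ →
        ‖pP κ x₂‖ < ‖pP κ w₂‖ → F x₁ = F x₂ → x₁ = x₂ := by
  obtain ⟨r1, r2, r3, r4, r5, r6, r7, r8, -⟩ := hROT
  obtain ⟨ρ, hρ⟩ : ∃ ρ : ℝ, ρ = max ‖pP κ z₁‖ ‖pP κ z₂‖ := ⟨_, rfl⟩
  have hρ1 : ‖pP κ z₁‖ ≤ ρ := by rw [hρ]; exact le_max_left _ _
  have hρ2 : ‖pP κ z₂‖ ≤ ρ := by rw [hρ]; exact le_max_right _ _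
  have hρ3 : ρ < Real.pi / 2 := by rw [hρ]; exact max_lt hp1 hp2
  obtain ⟨K, hK⟩ : ∃ K : Set E5, K = {z | ‖pN κ z‖ = 1 ∧ ‖pP κ z‖ ≤ ρ} := ⟨_, rfl⟩
  have hKN : ∀ z ∈ K, pN κ z ≠ 0 := by
    intro z hz h0
    rw [hK] at hz
    have := hz.1
    rw [h0, norm_zero] at this
    exact zero_ne_one this
  have hKc : IsCompact K := by
    refine (isCompact_closedBall (0 : E5) (1 + ρ)).of_isClosed_subset ?_ ?_
    · rw [hK]
      exact (isClosed_eq (pN κ).continuous.norm continuous_const).inter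
        (isClosed_le (pP κ).continuous.norm continuous_const)
    · intro z hz
      rw [hK] at hz
      rw [mem_closedBall_zero_iff, ← r1 κ z]
      refine (norm_add_le _ _).trans ?_
      rw [hz.1]
      linarith [hz.2]
  have hFc : ContinuousOn F {z | pN κ z ≠ 0} := hN.smooth.continuousOn
  have hopen : IsOpen {z : E5 | pN κ z ≠ 0} :=
    isOpen_ne.preimage (pN κ).continuous
  have hFd : ∀ z, pN κ z ≠ 0 → ContDiffAt ℝ ∞ F z := fun z hz =>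
    hN.smooth.contDiffAt (hopen.mem_nhds hz)
  -- local injectivity
  have hloc : ∀ z, ∃ U : Set E5, IsOpen U ∧ (z ∈ K → z ∈ U) ∧
      ∀ x ∈ U, ∀ y ∈ U, F x = F y → x = y := by
    intro z
    by_cases hz : z ∈ K
    · have hz' : ‖pP κ z‖ < Real.pi / 2 := by
        rw [hK] at hz; exact lt_of_le_of_lt hz.2 hρ3
      obtain ⟨⟨U, hU1, hU2, hU3⟩, -⟩ := local_inv (hFd z (hKN z hz))
        (hINV G κ a b F hS hN z (hKN z hz) hz')
      exact ⟨U, hU1, fun _ => hU2, hU3⟩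
    · exact ⟨∅, isOpen_empty, fun h => absurd h hz, fun x hx => absurd hx (notMem_empty x)⟩
  choose U hUo hUm hUi using hloc
  obtain ⟨W, hW⟩ : ∃ W : Set (E5 × E5), W = ⋃ z : E5, U z ×ˢ U z := ⟨_, rfl⟩
  have hWo : IsOpen W := by
    rw [hW]; exact isOpen_iUnion fun z => (hUo z).prod (hUo z)
  obtain ⟨Cc, hCc⟩ : ∃ Cc : Set (E5 × E5), Cc = ((K ×ˢ K) ∩ (fun p : E5 × E5 =>
    F p.1 - F p.2) ⁻¹' {0}) ∩ Wᶜ := ⟨_, rfl⟩
  have hCcomp : IsCompact Cc := by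
    have hKK : IsCompact (K ×ˢ K) := hKc.prod hKc
    refine hKK.of_isClosed_subset ?_ ?_
    · rw [hCc]
      refine IsClosed.inter ?_ hWo.isClosed_compl
      refine ContinuousOn.preimage_isClosed_of_isClosed ?_ hKK.isClosed isClosed_singleton
      refine ContinuousOn.sub ?_ ?_
      · exact hFc.comp continuousOn_fst (fun p hp => hKN _ hp.1)
      · exact hFc.comp continuousOn_snd (fun p hp => hKN _ hp.2)
    · rw [hCc]; exact fun p hp => hp.1.1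
  have hCmem : ∀ x₁ x₂ : E5, x₁ ∈ K → x₂ ∈ K → F x₁ = F x₂ → x₁ ≠ x₂ → (x₁, x₂) ∈ Cc := by
    intro x₁ x₂ hx1 hx2 hx hxne
    rw [hCc]
    refine ⟨⟨⟨hx1, hx2⟩, ?_⟩, ?_⟩
    · show F x₁ - F x₂ ∈ ({0} : Set E5)
      rw [hx, sub_self]; exact mem_singleton _
    · intro hmem
      rw [hW] at hmem
      obtain ⟨z, hz1, hz2⟩ := mem_iUnion.mp hmem
      exact hxne (hUi z _ hz1 _ hz2 hx)
  have hCne : ∀ p ∈ Cc, p.1 ≠ p.2 := by
    intro p hp heq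
    rw [hCc] at hp
    apply hp.2
    rw [hW]
    refine mem_iUnion.mpr ⟨p.1, hUm _ hp.1.1.1, ?_⟩
    rw [← heq]; exact hUm _ hp.1.1.1
  -- normalisation
  have hnormal : ∀ x₁ x₂ : E5, pN κ x₁ ≠ 0 → pN κ x₂ ≠ 0 → ‖pP κ x₁‖ ≤ ρ → ‖pP κ x₂‖ ≤ ρ →
      F x₁ = F x₂ → x₁ ≠ x₂ → ∃ p ∈ Cc, ‖pP κ p.1‖ = ‖pP κ x₁‖ ∧ ‖pP κ p.2‖ = ‖pP κ x₂‖ := by
    intro x₁ x₂ hx1 hx2 hr1 hr2 hx hxne
    have hnn : ‖pN κ x₁‖ = ‖pN κ x₂‖ := by rw [← hN.norm x₁ hx1, ← hN.norm x₂ hx2, hx]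
    have hpos : 0 < ‖pN κ x₁‖ := norm_pos_iff.mpr hx1
    obtain ⟨c, hc⟩ : ∃ c : ℝ, c = ‖pN κ x₁‖⁻¹ := ⟨_, rfl⟩
    have hcp : 0 < c := by rw [hc]; exact inv_pos.mpr hpos
    have e1 : ∀ x, pN κ (c • pN κ x + pP κ x) = c • pN κ x := by
      intro x; rw [map_add, map_smul, r6, r8, add_zero]
    have e2 : ∀ x, pP κ (c • pN κ x + pP κ x) = pP κ x := by
      intro x; rw [map_add, map_smul, r7, r5, smul_zero, zero_add]
    refine ⟨(c • pN κ x₁ + pP κ x₁, c • pN κ x₂ + pP κ x₂), hCmem _ _ ?_ ?_ ?_ ?_, ?_, ?_⟩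
    · rw [hK]
      refine ⟨?_, ?_⟩
      · rw [e1, norm_smul, Real.norm_of_nonneg hcp.le, hc, inv_mul_cancel₀ hpos.ne']
      · rw [e2]; exact hr1
    · rw [hK]
      refine ⟨?_, ?_⟩
      · rw [e1, norm_smul, Real.norm_of_nonneg hcp.le, ← hnn, hc, inv_mul_cancel₀ hpos.ne']
      · rw [e2]; exact hr2
    · rw [hN.hom c hcp x₁ hx1, hN.hom c hcp x₂ hx2, hx]
    · intro heq
      apply hxne
      have f1 := congrArg (pN κ) heq
      have f2 := congrArg (pP κ) heq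
      rw [e1, e1] at f1
      rw [e2, e2] at f2
      have f3 : pN κ x₁ = pN κ x₂ := smul_right_injective E5 hcp.ne' f1
      rw [← r1 κ x₁, ← r1 κ x₂, f3, f2]
    · show ‖pP κ (c • pN κ x₁ + pP κ x₁)‖ = _
      rw [e2]
    · show ‖pP κ (c • pN κ x₂ + pP κ x₂)‖ = _
      rw [e2]
  obtain ⟨p₀, hp₀, -, -⟩ := hnormal z₁ z₂ h1 h2 hρ1 hρ2 hF hne
  have hcont : ContinuousOn (fun p : E5 × E5 => ‖pP κ p.1‖ + ‖pP κ p.2‖) Cc :=
    ((((pP κ).continuous.comp continuous_fst).norm).add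
      (((pP κ).continuous.comp continuous_snd).norm)).continuousOn
  obtain ⟨q, hq, hqmin⟩ := hCcomp.exists_isMinOn ⟨p₀, hp₀⟩ hcont
  have hqC := hq
  rw [hCc] at hqC
  have hq1 : q.1 ∈ K := hqC.1.1.1
  have hq2 : q.2 ∈ K := hqC.1.1.2
  have hqF : F q.1 = F q.2 := sub_eq_zero.mp hqC.1.2
  have hq1' := hq1
  have hq2' := hq2
  rw [hK] at hq1' hq2'
  refine ⟨q.1, q.2, hKN _ hq1, hKN _ hq2, lt_of_le_of_lt hq1'.2 hρ3, lt_of_le_of_lt hq2'.2 hρ3,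
    hqF, hCne q hq, ?_⟩
  intro x₁ x₂ hx1 hx2 hl1 hl2 hx
  by_contra hxne
  obtain ⟨p, hp, hpe1, hpe2⟩ := hnormal x₁ x₂ hx1 hx2 (hl1.le.trans hq1'.2) (hl2.le.trans hq2'.2)
    hx hxne
  have h3 : ‖pP κ q.1‖ + ‖pP κ q.2‖ ≤ ‖pP κ p.1‖ + ‖pP κ p.2‖ := hqmin hp
  rw [hpe1, hpe2] at h3
  linarith

/-- the first variation of the distance -/
theorem decrease {G : E5 → Bil E5} {κ : Finset (Fin 5)} {a b : ℝ} {F : E5 → E5}
    (hROT : RotStatement) (hINV : InvStatement) (hGAU : GauStatement) (hS : Setup G κ a b)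
    (hN : NData G κ F) {z : E5} (h1 : pN κ z ≠ 0) (hp0 : 0 < ‖pP κ z‖)
    (hp1 : ‖pP κ z‖ < Real.pi / 2) (u : E5)
    (hu : G (F z) (‖pP κ z‖⁻¹ • fderiv ℝ F z (pP κ z)) u < 0) :
    ∃ g : ℝ → E5, g 0 = z ∧ ContinuousAt g 0 ∧ (∀ᶠ s in 𝓝 (0 : ℝ), F (g s) = F z + s • u) ∧
      ∀ᶠ s in 𝓝[>] (0 : ℝ), ‖pP κ (g s)‖ < ‖pP κ z‖ := by
  obtain ⟨r1, r2, r3, r4, r5, r6, r7, r8, -⟩ := hROT
  have hopen : IsOpen {z : E5 | pN κ z ≠ 0} := isOpen_ne.preimage (pN κ).continuous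
  obtain ⟨-, hloc⟩ := local_inv (hN.smooth.contDiffAt (hopen.mem_nhds h1))
    (hINV G κ a b F hS hN z h1 hp1)
  obtain ⟨g, w, hw, hg0, hgd, hgF⟩ := hloc u
  refine ⟨g, hg0, hgd.continuousAt, hgF, ?_⟩
  have hG := hGAU G κ a b F hS hN z h1 w
  rw [hw] at hG
  have hneg : ⟪pP κ z, w⟫ < 0 := by
    rw [← hG]
    rw [map_smul, ContinuousLinearMap.smul_apply, smul_eq_mul] at hu
    have h3 := mul_neg_of_pos_of_neg hp0 hu
    rwa [← mul_assoc, mul_inv_cancel₀ hp0.ne', one_mul] at h3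
  -- derivative of the squared norm
  have hd1 : HasDerivAt (fun s => pP κ (g s)) (pP κ w) 0 :=
    (pP κ).hasFDerivAt.comp_hasDerivAt (0 : ℝ) hgd
  have hd2 : HasDerivAt (fun s => ‖pP κ (g s)‖ ^ 2) (2 * ⟪pP κ (g 0), pP κ w⟫) 0 :=
    hd1.norm_sq
  have hval : 2 * ⟪pP κ (g 0), pP κ w⟫ < 0 := by
    rw [hg0, ← r4 κ (pP κ z) w, r5]
    linarith
  have h4 : ∀ᶠ s in 𝓝[>] (0 : ℝ), ‖pP κ (g s)‖ ^ 2 < ‖pP κ (g 0)‖ ^ 2 := by
    have h5 := hd2.hasDerivWithinAt (s := Ioi (0 : ℝ))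
    have h6 := (hasDerivWithinAt_iff_tendsto_slope' (by simp)).mp h5
    have h7 := h6.eventually (gt_mem_nhds hval)
    filter_upwards [h7, self_mem_nhdsWithin] with s hs hs0
    have hs0' : 0 < s := hs0
    rw [slope_def_field, sub_zero, div_neg_iff] at hs
    rcases hs with hs | hs
    · linarith [hs.2]
    · linarith [hs.1]
  filter_upwards [h4] with s hs
  rw [hg0] at hs
  exact lt_of_pow_lt_pow_left₀ 2 (norm_nonneg _) hs

theorem coa (hROT : RotStatement) (hINV : InvStatement) (hNOZ : NozStatement)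
    (hGAU : GauStatement) : CoaStatement := by
  intro G κ a b F hS hN hex
  obtain ⟨z₁, z₂, h1, h2, hp1, hp2, hF, hne⟩ := hex
  obtain ⟨w₁, w₂, hn1, hn2, hq1, hq2, hFw, hwne, hmin⟩ := exists_min hROT hINV hS hN h1 h2 hp1
    hp2 hF hne
  obtain ⟨r1, r2, r3, r4, r5, r6, r7, r8, -⟩ := id hROT
  have hπ : Real.pi / 2 < Real.pi := by linarith [Real.pi_pos]
  -- (i)
  have key : ∀ x₁ x₂ : E5, pN κ x₁ ≠ 0 → pN κ x₂ ≠ 0 → ‖pP κ x₂‖ < Real.pi / 2 →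
      F x₁ = F x₂ → x₁ ≠ x₂ → 0 < ‖pP κ x₁‖ := by
    intro x₁ x₂ hx1 hx2 hx3 hx hxne
    by_contra hcon
    have h0 : pP κ x₁ = 0 := norm_le_zero_iff.mp (not_lt.mp hcon)
    have hx10 : x₁ ≠ 0 := by rintro rfl; exact hx1 (map_zero _)
    have hb1 : F x₁ = x₁ := hN.base x₁ h0 hx10
    have hP2 : pP κ x₂ = 0 := by
      by_contra hP
      have h3 := hNOZ G κ a b F hS hN x₂ hx2 (norm_pos_iff.mpr hP) (hx3.trans hπ)
      apply h3
      rw [← hx, hb1, h0]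
    have hx20 : x₂ ≠ 0 := by rintro rfl; exact hx2 (map_zero _)
    have hb2 : F x₂ = x₂ := hN.base x₂ hP2 hx20
    apply hxne
    rw [← hb1, hx, hb2]
  have hl1 := key w₁ w₂ hn1 hn2 hq2 hFw hwne
  have hl2 := key w₂ w₁ hn2 hn1 hq1 hFw.symm (Ne.symm hwne)
  refine ⟨w₁, w₂, hn1, hn2, hl1, hq1, hl2, hq2, hFw, ?_⟩
  by_contra hT
  obtain ⟨T₁, hT1⟩ : ∃ T₁ : E5, T₁ = ‖pP κ w₁‖⁻¹ • fderiv ℝ F w₁ (pP κ w₁) := ⟨_, rfl⟩
  obtain ⟨T₂, hT2⟩ : ∃ T₂ : E5, T₂ = ‖pP κ w₂‖⁻¹ • fderiv ℝ F w₂ (pP κ w₂) := ⟨_, rfl⟩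
  have hT0 : T₁ + T₂ ≠ 0 := by
    intro h0
    apply hT
    rw [← hT1, ← hT2]
    exact eq_neg_of_add_eq_zero_left h0
  have hOm : F w₁ ∈ Om (Fin 5) := by
    show F w₁ ≠ 0
    intro h0
    have h3 := hN.norm w₁ hn1
    rw [h0, norm_zero] at h3
    exact hn1 (norm_eq_zero.mp h3.symm)
  -- unit vectors
  have hunit : ∀ x, pN κ x ≠ 0 → 0 < ‖pP κ x‖ →
      G (F x) (‖pP κ x‖⁻¹ • fderiv ℝ F x (pP κ x)) (‖pP κ x‖⁻¹ • fderiv ℝ F x (pP κ x)) = 1 := by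
    intro x hx hx0
    rw [map_smul, map_smul, ContinuousLinearMap.smul_apply, smul_eq_mul, smul_eq_mul,
      hGAU G κ a b F hS hN x hx (pP κ x), real_inner_self_eq_norm_sq]
    field_simp
  have hG1 : G (F w₁) T₁ T₁ = 1 := by rw [hT1]; exact hunit w₁ hn1 hl1
  have hG2 : G (F w₁) T₂ T₂ = 1 := by rw [hT2, hFw]; exact hunit w₂ hn2 hl2
  have hsym : G (F w₁) T₂ T₁ = G (F w₁) T₁ T₂ := hS.cyl.metric.symm _ hOm _ _
  have hpos := hS.cyl.metric.pos _ hOm _ hT0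
  rw [map_add, map_add, ContinuousLinearMap.add_apply, ContinuousLinearMap.add_apply, hG1, hG2,
    hsym] at hpos
  obtain ⟨u, hu⟩ : ∃ u : E5, u = -(T₁ + T₂) := ⟨_, rfl⟩
  have hu1 : G (F w₁) T₁ u < 0 := by
    rw [hu, map_neg, map_add, hG1]; linarith
  have hu2 : G (F w₂) T₂ u < 0 := by
    rw [← hFw, hu, map_neg, map_add, hG2, hsym]; linarith
  obtain ⟨g₁, hg10, hg1c, hg1F, hg1d⟩ := decrease hROT hINV hGAU hS hN hn1 hl1 hq1 u
    (by rw [← hT1]; exact hu1)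
  obtain ⟨g₂, hg20, hg2c, hg2F, hg2d⟩ := decrease hROT hINV hGAU hS hN hn2 hl2 hq2 u
    (by rw [← hT2]; exact hu2)
  have hopen : IsOpen {z : E5 | pN κ z ≠ 0} := isOpen_ne.preimage (pN κ).continuous
  have hev1 : ∀ᶠ s in 𝓝 (0 : ℝ), pN κ (g₁ s) ≠ 0 :=
    hg1c.eventually (hopen.mem_nhds (by rw [hg10]; exact hn1))
  have hev2 : ∀ᶠ s in 𝓝 (0 : ℝ), pN κ (g₂ s) ≠ 0 :=
    hg2c.eventually (hopen.mem_nhds (by rw [hg20]; exact hn2))
  have hev3 : ∀ᶠ s in 𝓝 (0 : ℝ), g₁ s ≠ g₂ s := by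
    have h3 : ContinuousAt (fun s => g₁ s - g₂ s) 0 := hg1c.sub hg2c
    have h4 : ∀ᶠ s in 𝓝 (0 : ℝ), g₁ s - g₂ s ≠ 0 :=
      h3.eventually (isOpen_ne.mem_nhds (by
        show g₁ 0 - g₂ 0 ≠ 0
        rw [hg10, hg20]; exact sub_ne_zero.mpr hwne))
    filter_upwards [h4] with s hs
    exact sub_ne_zero.mp hs
  have hall : ∀ᶠ s in 𝓝[>] (0 : ℝ), False := by
    filter_upwards [hg1d, hg2d, nhdsWithin_le_nhds hg1F, nhdsWithin_le_nhds hg2F,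
      nhdsWithin_le_nhds hev1, nhdsWithin_le_nhds hev2, nhdsWithin_le_nhds hev3] with s a1 a2 a3
      a4 a5 a6 a7
    exact a7 (hmin (g₁ s) (g₂ s) a5 a6 a1 a2 (by rw [a3, a4, hFw]))
  exact hall.exists.elim fun _ h => h

end Pool.Agent.MVS.H76
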